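import Mathlib
import Pool.Agent.H563R2.MMDefs
import Pool.Agent.H563R2.Main

/-!
# Regularity of the arithmetic complexity of matrix multiplication (MP_f57c03_lc), full answer

For every field `K` and every real `ω`: if `M(n) < n^ω` for infinitely many `n`, then
`M(n) < n^ω` (hence also `M(n) < n^ω log n`) for all sufficiently large `n`.

The definitions (`RatFun`, `entryA`, `entryB`, `const`, `IsOperand`, `IsProgram`,
`ComputesProduct`, `M`) are in `Pool.Agent.H563R2.MMDefs`.

Idea: let `R` be the tensor rank of `n × n` matrix multiplication over the rational function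
field `E`. For a program with `m` steps, mixed second derivatives show that at least `R / 2` steps
are multiplications or divisions, and mixed second logarithmic derivatives, which are additive for
products and quotients and change by one rank one form in an addition, show that at least
`R - n²` steps are additions or subtractions. So `3 R ≤ 2 m + 2 n²`, and `M(n) < n^ω` for a large
`n` gives `R < n^ω`, which descends to `K` after passing to a large Kronecker power, and then the
recursive block algorithm gives `M(N) = O(N^θ)` with `θ < ω`.
-/

set_option autoImplicit false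

open Filter

universe u

namespace Pool.Agent.Results.MP_f57c03_lc.Regularity

theorem result (K : Type u) [Field K] (ω : ℝ)
    (h : {n : ℕ | (H563R2.MM.M K n : ℝ) < (n : ℝ) ^ ω}.Infinite) :
    ∃ N₀ : ℕ, ∀ n : ℕ, N₀ ≤ n →
      (H563R2.MM.M K n : ℝ) < (n : ℝ) ^ ω ∧
      (H563R2.MM.M K n : ℝ) < (n : ℝ) ^ ω * Real.log n := by
  have h1 := H563R2.MM.eventually_M_lt (K := K) ω (Nat.frequently_atTop_iff_infinite.2 h)
  obtain ⟨N, hN⟩ := eventually_atTop.1 h1
  refine ⟨max N 3, fun n hn => ⟨hN n (le_of_max_le_left hn), ?_⟩⟩
  have h2 := hN n (le_of_max_le_left hn)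
  have hn3 : 3 ≤ n := le_of_max_le_right hn
  have hn3' : (3 : ℝ) ≤ n := by exact_mod_cast hn3
  have hlog : 1 ≤ Real.log n := by
    rw [Real.le_log_iff_exp_le (by linarith)]
    have := Real.exp_one_lt_d9
    linarith
  have hpos : 0 ≤ (n : ℝ) ^ ω := by positivity
  exact lt_of_lt_of_le h2 (le_mul_of_one_le_right hpos hlog)

end Pool.Agent.Results.MP_f57c03_lc.Regularity
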